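import Pool.Agent.W64.DM.Stm

/-!
Project DM, part GEO: geometric sums.
-/

set_option autoImplicit false

namespace Pool.Agent.W803.DM.Geo

open Pool.Agent.W64.DM

noncomputable def ex (τ : ℝ) : ℂ := Complex.exp (2 * Real.pi * Complex.I * (τ : ℝ))

theorem term_eq (τ : ℝ) (u : ℕ) :
    Complex.exp (2 * Real.pi * Complex.I * (τ * (u : ℝ) : ℝ)) = ex τ ^ u := by
  unfold ex
  rw [← Complex.exp_nat_mul]
  congr 1
  push_cast
  ring

theorem norm_ex (τ : ℝ) : ‖ex τ‖ = 1 := by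
  have : ex τ = Complex.exp (((2 * Real.pi * τ : ℝ) : ℂ) * Complex.I) := by
    unfold ex
    congr 1
    push_cast
    ring
  rw [this, Complex.norm_exp_ofReal_mul_I]

theorem norm_sub_one (τ : ℝ) : 4 * nn τ ≤ ‖ex τ - 1‖ := by
  have h1 : ex τ = Complex.exp (Complex.I * ((2 * Real.pi * (τ - round τ) : ℝ) : ℂ)) := by
    unfold ex
    rw [Complex.exp_eq_exp_iff_exists_int]
    refine ⟨round τ, ?_⟩
    push_cast
    ring
  rw [h1, Complex.norm_exp_I_mul_ofReal_sub_one]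
  have h2 : (2 * Real.pi * (τ - round τ)) / 2 = Real.pi * (τ - round τ) := by ring
  rw [h2]
  have h3 : |τ - round τ| ≤ 1 / 2 := abs_sub_round τ
  have hpi := Real.pi_pos
  have h4 : |Real.pi * (τ - round τ)| ≤ Real.pi / 2 := by
    rw [abs_mul, abs_of_pos hpi]
    nlinarith
  have h5 := Real.mul_abs_le_abs_sin h4
  have h6 : 2 / Real.pi * |Real.pi * (τ - round τ)| = 2 * |τ - round τ| := by
    rw [abs_mul, abs_of_pos hpi]
    field_simp
  rw [h6] at h5
  rw [Real.norm_eq_abs, abs_mul, abs_of_pos (by norm_num : (0:ℝ) < 2)]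
  unfold nn
  linarith

theorem main : S_GEO := by
  intro Q τ hQ
  have hQ' : (1 : ℝ) ≤ (Q : ℝ) := by exact_mod_cast hQ
  have hsum : ∑ u ∈ Finset.range (2 * Q),
      Complex.exp (2 * Real.pi * Complex.I * (τ * (u : ℝ) : ℝ))
        = ∑ u ∈ Finset.range (2 * Q), ex τ ^ u :=
    Finset.sum_congr rfl fun u _ => term_eq τ u
  rw [hsum]
  have hnn : 0 ≤ nn τ := abs_nonneg _
  by_cases h : 16 * (Q : ℝ) ^ 2 * nn τ ^ 2 ≤ 1
  · have hh1 : hh Q (nn τ) = 1 := by
      unfold hh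
      rw [max_eq_left h]
      norm_num
    rw [hh1, mul_one]
    have h1 : ‖∑ u ∈ Finset.range (2 * Q), ex τ ^ u‖ ≤ 2 * (Q : ℝ) := by
      refine (norm_sum_le _ _).trans ?_
      have : ∑ u ∈ Finset.range (2 * Q), ‖ex τ ^ u‖ = 2 * (Q : ℝ) := by
        rw [Finset.sum_congr rfl (fun u _ => by rw [norm_pow, norm_ex, one_pow])]
        simp
      rw [this]
    have h0 : 0 ≤ ‖∑ u ∈ Finset.range (2 * Q), ex τ ^ u‖ := norm_nonneg _
    nlinarith
  · push Not at h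
    have hpos : 0 < nn τ := by
      rcases hnn.lt_or_eq with h' | h'
      · exact h'
      · rw [← h'] at h
        norm_num at h
    have hh1 : 4 * (Q : ℝ) ^ 2 * hh Q (nn τ) = (1 / (2 * nn τ)) ^ 2 := by
      unfold hh
      rw [max_eq_right h.le]
      have : (Q : ℝ) ≠ 0 := by linarith
      field_simp
      norm_num
    rw [hh1]
    have h1 : (∑ u ∈ Finset.range (2 * Q), ex τ ^ u) * (ex τ - 1) = ex τ ^ (2 * Q) - 1 :=
      geom_sum_mul _ _
    have h2 : ‖ex τ ^ (2 * Q) - 1‖ ≤ 2 := by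
      refine (norm_sub_le _ _).trans ?_
      rw [norm_pow, norm_ex, one_pow, norm_one]
      norm_num
    have h3 : ‖∑ u ∈ Finset.range (2 * Q), ex τ ^ u‖ * ‖ex τ - 1‖ ≤ 2 := by
      rw [← norm_mul, h1]
      exact h2
    have h4 := norm_sub_one τ
    have h0 : 0 ≤ ‖∑ u ∈ Finset.range (2 * Q), ex τ ^ u‖ := norm_nonneg _
    have h5 : ‖∑ u ∈ Finset.range (2 * Q), ex τ ^ u‖ * (4 * nn τ) ≤ 2 :=
      (mul_le_mul_of_nonneg_left h4 h0).trans h3
    have h6 : ‖∑ u ∈ Finset.range (2 * Q), ex τ ^ u‖ ≤ 1 / (2 * nn τ) := by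
      rw [le_div_iff₀ (by positivity)]
      nlinarith
    exact pow_le_pow_left₀ h0 h6 2

end Pool.Agent.W803.DM.Geo
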